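import Pool.Agent.W2helper30.AN.Gen

/-! The members of a sparse family in the residue classes of large moduli. -/

set_option autoImplicit false

namespace Pool.Agent.W2helper30.HG

open Real Finset Filter
open Pool.Agent.Y933.KD (e norm_e e_add)
open Pool.Agent.W2helper30.AN
open Pool.Agent.W2helper30.PN

/-- the number of the `a < q` with `q ∣ a κ` -/
lemma card_dvd (κ : ℤ) (hκ : κ ≠ 0) (q : ℕ) (hq : 1 ≤ q) :
    ((range q).filter (fun a : ℕ => (q : ℤ) ∣ a * κ)).card ≤ κ.natAbs := by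
  have hk : 0 < κ.natAbs := Int.natAbs_pos.2 hκ
  have hnat : ∀ a : ℕ, (q : ℤ) ∣ a * κ → q ∣ a * κ.natAbs := by
    intro a ha
    have h1 := Int.natAbs_dvd_natAbs.2 ha
    rwa [Int.natAbs_mul, Int.natAbs_natCast, Int.natAbs_natCast] at h1
  refine (Finset.card_le_card_of_injOn (fun a => a * κ.natAbs / q) (t := range κ.natAbs) ?_ ?_).trans
    (by rw [card_range])
  · intro a ha
    simp only [coe_filter, Set.mem_setOf_eq, mem_range] at ha
    simp only [coe_range, Set.mem_Iio]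
    rw [Nat.div_lt_iff_lt_mul (by omega)]
    rw [mul_comm κ.natAbs q]
    exact Nat.mul_lt_mul_of_pos_right ha.1 hk
  · intro a ha b hb hab
    simp only [coe_filter, Set.mem_setOf_eq, mem_range] at ha hb
    have h1 := Nat.div_mul_cancel (hnat a ha.2)
    have h2 := Nat.div_mul_cancel (hnat b hb.2)
    simp only at hab
    rw [hab, h2] at h1
    exact (Nat.eq_of_mul_eq_mul_right hk h1).symm

/-- the number of the multiples of `q` -/
theorem count_q {f : ℝ → ℝ} {x0 : ℝ} {k0 : ℕ} (hf : Ord f x0 k0) (δ0 ε : ℝ) (hδ0 : 0 < δ0)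
    (hε : 0 < ε) (hε2 : ε < 1 / 2) :
    ∃ c : ℝ, 0 < c ∧ ∃ N0 : ℕ, ∀ M : ℕ, N0 ≤ M → ∀ U : ℝ, Rg k0 δ0 ε M U → ∀ (κ : ℤ) (q : ℕ), 1 ≤ q →
    κ ≠ 0 → (q : ℝ) ≤ Real.exp (c * Sv M U) → ∀ c₀ : ℤ,
    ∑ m ∈ Finset.Ioc M (2 * M), ind q (c₀ + κ * vl f x0 U m) ≤ (κ.natAbs + 1 : ℝ) * (M / q) := by
  obtain ⟨c, hc, N1, hN1⟩ := floor_f hf δ0 ε hδ0 hε hε2
  have hk0 := hf.2.1
  obtain ⟨N2, hN2⟩ := eventually_atTop.1 ((lpow (by linarith : (0 : ℝ) < 2 * ε)
    (2 / c * log 1042)))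
  refine ⟨c / 2, by positivity, max (max N1 N2) 2, fun M hM U hU κ q hq hκ hqS c₀ => ?_⟩
  have hqR : (1 : ℝ) ≤ q := by exact_mod_cast hq
  have hNN1 : N1 ≤ M := le_of_max_le_left (le_of_max_le_left hM)
  have ha := hN2 M (le_of_max_le_right (le_of_max_le_left hM))
  have hM2 : 2 ≤ M := le_of_max_le_right hM
  have hMR : (2 : ℝ) ≤ M := by exact_mod_cast hM2
  have hM0 : (0 : ℝ) < M := by linarith
  have hSg := hU.sv_ge hk0 hδ0 hM2
  obtain ⟨S, hS⟩ : ∃ S : ℝ, S = Sv M U := ⟨_, rfl⟩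
  rw [← hS] at hSg hqS
  rw [Real.rpow_zero, mul_one] at ha
  have hS2 : log 1042 ≤ c / 2 * S := by
    have h1 : 2 / c * log 1042 ≤ S := ha.trans hSg
    calc log 1042 = c / 2 * (2 / c * log 1042) := by field_simp
      _ ≤ _ := by gcongr
  have hS0 : 0 ≤ c / 2 * S := le_trans (Real.log_nonneg (by norm_num)) hS2
  have hSq : Real.exp (-(c * S)) ≤ 1 / q := by
    rw [Real.exp_neg, one_div]
    refine inv_anti₀ (by positivity) (hqS.trans (Real.exp_le_exp.2 (by linarith)))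
  have hSη : 1042 * Real.exp (-(c * S)) ≤ 1 / q := by
    have h1 : (1042 : ℝ) ≤ Real.exp (c / 2 * S) := by
      rw [← Real.log_le_iff_le_exp (by norm_num)]
      exact hS2
    have h2 : Real.exp (-(c * S)) = (Real.exp (c / 2 * S))⁻¹ * (Real.exp (c / 2 * S))⁻¹ := by
      rw [← Real.exp_neg, ← Real.exp_add]
      congr 1
      ring
    have h3 : (Real.exp (c / 2 * S))⁻¹ ≤ 1 / q := by
      rw [one_div]
      exact inv_anti₀ (by positivity) hqS
    have h4 : 1042 * (Real.exp (c / 2 * S))⁻¹ ≤ 1 := by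
      rw [← div_eq_mul_inv, div_le_one (Real.exp_pos _)]
      exact h1
    rw [h2]
    have h5 : 0 < (Real.exp (c / 2 * S))⁻¹ := inv_pos.2 (Real.exp_pos _)
    calc 1042 * ((Real.exp (c / 2 * S))⁻¹ * (Real.exp (c / 2 * S))⁻¹) =
        (1042 * (Real.exp (c / 2 * S))⁻¹) * (Real.exp (c / 2 * S))⁻¹ := by ring
      _ ≤ 1 * (Real.exp (c / 2 * S))⁻¹ := by gcongr
      _ ≤ 1 / q := by rw [one_mul]; exact h3
  -- the sum as an exponential sum
  have h1 : ((∑ m ∈ Finset.Ioc M (2 * M), ind q (c₀ + κ * vl f x0 U m) : ℝ) : ℂ) =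
      1 / (q : ℂ) * ∑ a ∈ range q, ∑ m ∈ Finset.Ioc M (2 * M),
        e ((a : ℝ) * (((c₀ + κ * vl f x0 U m : ℤ) : ℝ) / q)) := by
    rw [Finset.sum_comm, Finset.mul_sum]
    push_cast
    refine Finset.sum_congr rfl fun m _ => ?_
    have h2 := geom_e q hq (c₀ + κ * vl f x0 U m)
    push_cast at h2 ⊢
    rw [h2]
    unfold ind
    have hqC : (q : ℂ) ≠ 0 := by
      have : q ≠ 0 := by omega
      exact_mod_cast this
    split_ifs <;> simp [hqC]
  have h2 : ∀ a ∈ (range q).filter (fun a : ℕ => ¬ (q : ℤ) ∣ a * κ), ‖∑ m ∈ Finset.Ioc M (2 * M),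
      e ((a : ℝ) * (((c₀ + κ * vl f x0 U m : ℤ) : ℝ) / q))‖ ≤ 1 / q * M := by
    intro a ha
    rw [mem_filter, mem_range] at ha
    obtain ⟨α, hα⟩ : ∃ α : ℝ, α = a * κ / q := ⟨_, rfl⟩
    have h3 : ∀ m : ℕ, e ((a : ℝ) * (((c₀ + κ * vl f x0 U m : ℤ) : ℝ) / q)) =
        e (a * c₀ / q) * e ((α - round α) * (vl f x0 U m : ℤ)) := by
      intro m
      have h4 : (a : ℝ) * (((c₀ + κ * vl f x0 U m : ℤ) : ℝ) / q) =
          a * c₀ / q + ((α - round α) * (vl f x0 U m : ℤ) + ((round α * vl f x0 U m : ℤ) : ℝ)) := by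
        rw [hα]
        push_cast
        ring
      rw [h4, e_add, e_add]
      have h5 : e ((round α * vl f x0 U m : ℤ) : ℝ) = 1 := (e_one_iff _).2 ⟨_, rfl⟩
      rw [h5, mul_one]
    simp only [h3]
    rw [← Finset.mul_sum, norm_mul, norm_e, one_mul]
    have hge : 1 / (q : ℝ) ≤ |α - round α| := by
      have h6 : (a * κ - q * round α : ℤ) ≠ 0 := by
        intro h7
        exact ha.2 ⟨round α, by linarith⟩
      have h7 := Int.one_le_abs h6
      have h8 : (1 : ℝ) ≤ |(a : ℝ) * κ - q * round α| := by exact_mod_cast h7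
      have h9 : α - round α = ((a : ℝ) * κ - q * round α) / q := by
        rw [hα]
        field_simp
      rw [h9, abs_div, abs_of_pos (by linarith : (0 : ℝ) < q)]
      gcongr
    have h10 := hN1 M hNN1 U hU (α - round α) (abs_sub_round α)
      (by rw [← hS]; exact hSq.trans hge)
    rw [← hS] at h10
    unfold vl
    refine h10.trans ?_
    calc 1042 * (M * Real.exp (-(c * S))) = 1042 * Real.exp (-(c * S)) * M := by ring
      _ ≤ _ := by gcongr
  have h3 : ∀ a ∈ (range q).filter (fun a : ℕ => (q : ℤ) ∣ a * κ), ‖∑ m ∈ Finset.Ioc M (2 * M),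
      e ((a : ℝ) * (((c₀ + κ * vl f x0 U m : ℤ) : ℝ) / q))‖ ≤ M := by
    intro a _
    refine (norm_sum_le _ _).trans ?_
    simp only [norm_e, sum_const, Nat.card_Ioc, nsmul_eq_mul, mul_one]
    have : 2 * M - M = M := by omega
    rw [this]
  have h4 := congrArg norm h1
  rw [Complex.norm_real, Real.norm_eq_abs] at h4
  refine (le_abs_self _).trans ?_
  rw [h4, norm_mul, norm_div, norm_one, Complex.norm_natCast,
    ← Finset.sum_filter_add_sum_filter_not (range q) (fun a : ℕ => (q : ℤ) ∣ a * κ)]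
  have h5 : ‖∑ a ∈ (range q).filter (fun a : ℕ => (q : ℤ) ∣ a * κ), ∑ m ∈ Finset.Ioc M (2 * M),
      e ((a : ℝ) * (((c₀ + κ * vl f x0 U m : ℤ) : ℝ) / q))‖ ≤ κ.natAbs * M := by
    refine (norm_sum_le _ _).trans ((sum_le_sum h3).trans ?_)
    rw [sum_const, nsmul_eq_mul]
    gcongr
    exact card_dvd κ hκ q hq
  have h6 : ‖∑ a ∈ (range q).filter (fun a : ℕ => ¬ (q : ℤ) ∣ a * κ), ∑ m ∈ Finset.Ioc M (2 * M),
      e ((a : ℝ) * (((c₀ + κ * vl f x0 U m : ℤ) : ℝ) / q))‖ ≤ M := by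
    refine (norm_sum_le _ _).trans ((sum_le_sum h2).trans ?_)
    rw [sum_const, nsmul_eq_mul]
    have h7 : (((range q).filter (fun a : ℕ => ¬ (q : ℤ) ∣ a * κ)).card : ℝ) ≤ q := by
      exact_mod_cast (Finset.card_filter_le _ _).trans (by rw [card_range])
    calc (((range q).filter (fun a : ℕ => ¬ (q : ℤ) ∣ a * κ)).card : ℝ) * (1 / q * M) ≤ q * (1 / q * M) := by
          gcongr
      _ = M := by field_simp
  calc 1 / (q : ℝ) * ‖_‖ ≤ 1 / q * (κ.natAbs * M + M) := by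
        gcongr
        exact (norm_add_le _ _).trans (add_le_add h5 h6)
    _ = _ := by field_simp

open Classical in
/-- at most `(|κ| + 1) M / q` members are in a given class modulo `q` -/
theorem card_q {f : ℝ → ℝ} {x0 : ℝ} {k0 : ℕ} (hf : Ord f x0 k0) (δ0 ε : ℝ) (hδ0 : 0 < δ0)
    (hε : 0 < ε) (hε2 : ε < 1 / 2) :
    ∃ c : ℝ, 0 < c ∧ ∃ N0 : ℕ, ∀ M : ℕ, N0 ≤ M → ∀ U : ℝ, Rg k0 δ0 ε M U → ∀ (κ : ℤ) (q : ℕ), 1 ≤ q →
    κ ≠ 0 → (q : ℝ) ≤ Real.exp (c * Sv M U) → ∀ (c₀ v : ℤ),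
    (((Finset.Ioc M (2 * M)).filter (fun m => (q : ℤ) ∣ c₀ + κ * vl f x0 U m - v)).card : ℝ) ≤
      (κ.natAbs + 1 : ℝ) * (M / q) := by
  obtain ⟨c, hc, N0, h⟩ := count_q hf δ0 ε hδ0 hε hε2
  refine ⟨c, hc, N0, fun M hM U hU κ q hq hκ hqS c₀ v => ?_⟩
  have h1 := h M hM U hU κ q hq hκ hqS (c₀ - v)
  refine le_trans (le_of_eq ?_) h1
  rw [Finset.card_filter]
  push_cast
  refine Finset.sum_congr rfl fun m _ => ?_
  unfold ind
  have e1 : c₀ - v + κ * vl f x0 U m = c₀ + κ * vl f x0 U m - v := by ring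
  rw [e1]

end Pool.Agent.W2helper30.HG
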