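import Pool.Agent.W2helper30.HE.Drop
import Pool.Agent.W2helper30.HG.Cnt

/-! The members of sparse families under Möller's maps. -/

set_option autoImplicit false

namespace Pool.Agent.W2helper30.HG

open Finset Filter Topology
open Pool.Agent.H319R2
open Pool.Agent.Y927.GP Pool.Agent.Y927.GP.Mo
open Pool.Agent.W2helper30.AN
open Pool.Agent.W2helper30.HE (drop)
open Pool.Agent.W2helper30.PN

/-- the exponent of the savings is large -/
lemma S_big {k0 : ℕ} (hk0 : 1 ≤ k0) (δ0 ε : ℝ) (hδ0 : 0 < δ0) (hε : 0 < ε) (B : ℝ) :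
    ∃ N0 : ℕ, ∀ M : ℕ, N0 ≤ M → ∀ U : ℝ, Rg k0 δ0 ε M U → B ≤ Sv M U := by
  obtain ⟨N2, hN2⟩ := eventually_atTop.1 ((lpow (by linarith : (0 : ℝ) < 2 * ε) B))
  refine ⟨max N2 2, fun M hM U hU => ?_⟩
  have ha := hN2 M (le_of_max_le_left hM)
  have hSg := hU.sv_ge hk0 hδ0 (le_of_max_le_right hM)
  rw [Real.rpow_zero, mul_one] at ha
  exact ha.trans hSg

/-- the final numerical inequality -/
lemma ev_num (d : ℕ) (hd : 2 ≤ d) {c K B : ℝ} (hc : 0 < c) (hK : 0 < K) (hB : 0 < B) :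
    ∀ᶠ N : ℕ in atTop, B / (d : ℝ) ^ (3 * N) + B * (K * ((N + 1) * Real.exp (-(c * N)))) ≤
      Real.exp (-(min c 1 / 2 * N)) := by
  have h1 : Tendsto (fun N : ℕ => c / 2 * (N : ℝ)) atTop atTop :=
    Tendsto.const_mul_atTop (by positivity) tendsto_natCast_atTop_atTop
  have h2 : Tendsto (fun N : ℕ => (c / 2 * (N : ℝ)) ^ 1 * Real.exp (-(c / 2 * N))) atTop (𝓝 0) :=
    (Real.tendsto_pow_mul_exp_neg_atTop_nhds_zero 1).comp h1
  have h3 : Tendsto (fun N : ℕ => 1 / 2 * (N : ℝ)) atTop atTop :=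
    Tendsto.const_mul_atTop (by positivity) tendsto_natCast_atTop_atTop
  filter_upwards [h2.eventually (gt_mem_nhds (show (0 : ℝ) < c / (8 * B * K) by positivity)),
    h3.eventually_ge_atTop (Real.log (2 * B)), eventually_ge_atTop 1] with N a1 a2 a3
  have hN1 : (1 : ℝ) ≤ N := by exact_mod_cast a3
  have hN0 : (0 : ℝ) ≤ N := by linarith
  have hm1 : min c 1 ≤ c := min_le_left _ _
  have hm2 : min c 1 ≤ 1 := min_le_right _ _
  have hm0 : 0 < min c 1 := lt_min hc one_pos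
  rw [pow_one] at a1
  have b1 : B / (d : ℝ) ^ (3 * N) ≤ 1 / 2 * Real.exp (-(min c 1 / 2 * N)) := by
    have c1 : Real.exp N ≤ (d : ℝ) ^ (3 * N) := by
      have c2 : Real.exp N = (Real.exp 1) ^ N := by rw [← Real.exp_nat_mul, mul_one]
      rw [c2, pow_mul]
      have c3 : Real.exp 1 ≤ (d : ℝ) ^ 3 := by
        have c4 := Real.exp_one_lt_d9
        have c5 : (2 : ℝ) ^ 3 ≤ (d : ℝ) ^ 3 := by
          gcongr
          exact_mod_cast hd
        linarith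
      exact pow_le_pow_left₀ (Real.exp_pos _).le c3 N
    have c6 : B / (d : ℝ) ^ (3 * N) ≤ B * Real.exp (-(N : ℝ)) := by
      rw [Real.exp_neg, ← div_eq_mul_inv]
      exact div_le_div_of_nonneg_left hB.le (Real.exp_pos _) c1
    refine c6.trans ?_
    have c7 : 2 * B * Real.exp (-(N : ℝ)) ≤ Real.exp (-(min c 1 / 2 * N)) := by
      have c8 : 2 * B * Real.exp (-(N : ℝ)) = Real.exp (Real.log (2 * B) + -(N : ℝ)) := by
        rw [Real.exp_add, Real.exp_log (by positivity)]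
      rw [c8]
      apply Real.exp_le_exp.2
      nlinarith
    linarith
  have b2 : B * (K * ((N + 1) * Real.exp (-(c * N)))) ≤ 1 / 2 * Real.exp (-(min c 1 / 2 * N)) := by
    have c1 : Real.exp (-(c * N)) ≤ Real.exp (-(c / 2 * N)) * Real.exp (-(min c 1 / 2 * N)) := by
      rw [← Real.exp_add]
      apply Real.exp_le_exp.2
      nlinarith
    have c2 : B * (K * ((N + 1) * Real.exp (-(c * N)))) ≤
        B * (K * ((2 * N) * (Real.exp (-(c / 2 * N)) * Real.exp (-(min c 1 / 2 * N))))) := by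
      gcongr
      linarith
    refine c2.trans ?_
    have c3 : B * (K * ((2 * N) * (Real.exp (-(c / 2 * N)) * Real.exp (-(min c 1 / 2 * N))))) =
        (4 * B * K / c * (c / 2 * N * Real.exp (-(c / 2 * N)))) * Real.exp (-(min c 1 / 2 * N)) := by
      field_simp
      ring
    rw [c3]
    apply mul_le_mul_of_nonneg_right _ (Real.exp_pos _).le
    have c4 : 4 * B * K / c * (c / 2 * N * Real.exp (-(c / 2 * N))) ≤ 4 * B * K / c * (c / (8 * B * K)) := by gcongr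
    refine c4.trans (le_of_eq ?_)
    field_simp
    norm_num
  linarith

/-- positive integers which are not divisible by `d` have a term `≤ q n` in their orbit -/
def Dr (d m : ℕ) (r : ℤ → ℤ) (q : ℝ) (n : ℤ) : Prop :=
  0 < n → ¬ (d : ℤ) ∣ n → ∃ k : ℕ, 1 ≤ k ∧ Def d m r n k ∧ 0 < (H d m r)^[k] n ∧
    (((H d m r)^[k] n : ℤ) : ℝ) ≤ q * n

variable {d m : ℕ} {r : ℤ → ℤ}

open Classical in
/-- **the members of sparse families drop** -/
theorem main (hd : 2 ≤ d) (hm : 2 ≤ m) (hc : Nat.Coprime m d)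
    (hle : (m : ℝ) ≤ (d : ℝ) ^ ((d : ℝ) / ((d : ℝ) - 1)))
    (hr : ∀ j : ℤ, 1 ≤ j → j < d → (d : ℤ) ∣ m * j - r j)
    {f : ℝ → ℝ} {x0 : ℝ} {k0 : ℕ} (hf : Ord f x0 k0) (δ0 ε : ℝ) (hδ0 : 0 < δ0) (hε : 0 < ε) (hε2 : ε < 1 / 2) :
    ∃ c : ℝ, 0 < c ∧ ∀ κ : ℤ, κ ≠ 0 → ∃ N0 : ℕ, ∀ M : ℕ, N0 ≤ M → ∀ U : ℝ, Rg k0 δ0 ε M U → ∀ c₀ : ℤ,
    (((Finset.Ioc M (2 * M)).filter (fun i => ¬ Dr d m r (Real.exp (-(c * Sv M U))) (c₀ + κ * vl f x0 U i))).card : ℝ) ≤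
      M * Real.exp (-(c * Sv M U)) := by
  have D := data (r := r) hd hc hr
  have hC := cls (m := m) (r := r) hd
  obtain ⟨hκ0, hκ1⟩ := kap_bounds hd hm hc hle
  have hd1 : (1 : ℝ) < d := by exact_mod_cast (by omega : 1 < d)
  have hd0 : (0 : ℝ) < d := by linarith
  have hL : 0 < Real.log d := Real.log_pos hd1
  have hk0 := hf.2.1
  obtain ⟨c1, hc1, hdrop⟩ := drop (r := r) hd hm hc hle hr D
  obtain ⟨c2, K, hc2, hK, hcl⟩ := card_classes (Leigh.gm_fac D) (Leigh.gm_cls D hC)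
    (η := kap d m * Real.log d / 2) (by positivity)
  obtain ⟨c3, hc3, N1, hcnt⟩ := card_q hf δ0 ε hδ0 hε hε2
  obtain ⟨a, ha⟩ : ∃ a : ℝ, a = c3 / (12 * Real.log d) := ⟨_, rfl⟩
  have ha0 : 0 < a := by rw [ha]; positivity
  obtain ⟨cc, hcc⟩ : ∃ cc : ℝ, cc = min c1 (min c2 1 / 2) * a := ⟨_, rfl⟩
  have hmm : 0 < min c2 1 / 2 := by
    have := lt_min hc2 one_pos
    positivity
  have hcc0 : 0 < cc := by
    rw [hcc]
    exact mul_pos (lt_min hc1 hmm) ha0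
  refine ⟨cc, hcc0, fun κ hκ => ?_⟩
  obtain ⟨B, hB⟩ : ∃ B : ℝ, B = κ.natAbs + 1 := ⟨_, rfl⟩
  have hB0 : 0 < B := by
    rw [hB]
    positivity
  obtain ⟨N2, hN2⟩ := eventually_atTop.1 (hdrop.and (ev_num d hd hc2 hK hB0))
  obtain ⟨N3, hN3⟩ := S_big hk0 δ0 ε hδ0 hε (max (1 / a) (N2 / a))
  refine ⟨max N1 N3, fun M hM U hU c₀ => ?_⟩
  have hS := hN3 M (le_of_max_le_right hM) U hU
  have hq := hcnt M (le_of_max_le_left hM) U hU
  obtain ⟨S, hSS⟩ : ∃ S : ℝ, S = Sv M U := ⟨_, rfl⟩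
  rw [← hSS] at hS hq ⊢
  have hS1 : 1 ≤ a * S := by
    have h1 : 1 / a ≤ S := (le_max_left _ _).trans hS
    rw [div_le_iff₀ ha0] at h1
    linarith
  have hS2 : (N2 : ℝ) ≤ a * S := by
    have h1 : N2 / a ≤ S := (le_max_right _ _).trans hS
    rw [div_le_iff₀ ha0] at h1
    linarith
  have hS0 : 0 < S := by
    by_contra hcon
    have : a * S ≤ 0 := mul_nonpos_of_nonneg_of_nonpos ha0.le (by linarith)
    linarith
  obtain ⟨N, hN⟩ : ∃ N : ℕ, N = ⌊2 * a * S⌋₊ := ⟨_, rfl⟩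
  have hNle : (N : ℝ) ≤ 2 * a * S := by
    rw [hN]
    exact Nat.floor_le (by positivity)
  have hNge : a * S ≤ N := by
    have h1 := Nat.lt_floor_add_one (2 * a * S)
    rw [← hN] at h1
    linarith
  have hNN2 : N2 ≤ N := by exact_mod_cast hS2.trans hNge
  obtain ⟨hdr, hnum⟩ := hN2 N hNN2
  have hexp : ∀ n : ℕ, (d : ℝ) ^ n = Real.exp (Real.log d * n) := by
    intro n
    rw [mul_comm, Real.exp_nat_mul, Real.exp_log hd0]
  have hq6 : (((d ^ (6 * N) : ℕ)) : ℝ) ≤ Real.exp (c3 * S) := by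
    push_cast
    rw [hexp]
    apply Real.exp_le_exp.2
    push_cast
    have h1 : Real.log d * (6 * N) ≤ Real.log d * (6 * (2 * a * S)) := by gcongr
    refine h1.trans (le_of_eq ?_)
    rw [ha]
    field_simp
    ring
  have hq1 : (((d ^ N : ℕ)) : ℝ) ≤ Real.exp (c3 * S) := by
    refine le_trans ?_ hq6
    exact_mod_cast Nat.pow_le_pow_right (by omega) (by omega)
  have hpos : ∀ n : ℕ, 1 ≤ d ^ n := fun n => Nat.one_le_pow _ _ (by omega)
  obtain ⟨x, hx⟩ : ∃ x : ℕ → ℤ, x = fun i => c₀ + κ * vl f x0 U i := ⟨_, rfl⟩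
  have hxi : ∀ i, c₀ + κ * vl f x0 U i = x i := fun i => by rw [hx]
  simp only [hxi]
  have hM0 : (0 : ℝ) ≤ M := Nat.cast_nonneg M
  -- the two exceptional sets
  obtain ⟨A1, hA1⟩ : ∃ A1, A1 = (Finset.Ioc M (2 * M)).filter (fun i => 0 < x i ∧ x i < (d : ℤ) ^ (3 * N)) := ⟨_, rfl⟩
  obtain ⟨A2, hA2⟩ : ∃ A2, A2 = (Finset.Ioc M (2 * M)).filter (fun i =>
    Unb (Leigh.gm D) (mu (Leigh.gm D) (CC d) (fun _ => 1 / (d : ℝ))) (kap d m * Real.log d / 2) N (x i)) := ⟨_, rfl⟩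
  have hcard1 : (A1.card : ℝ) ≤ M * (B / (d : ℝ) ^ (3 * N)) := by
    have hsub : A1 ⊆ (range (d ^ (3 * N))).biUnion (fun v => (Finset.Ioc M (2 * M)).filter (fun i =>
        ((d ^ (6 * N) : ℕ) : ℤ) ∣ c₀ + κ * vl f x0 U i - (v : ℤ))) := by
      intro i hi
      rw [hA1, mem_filter] at hi
      rw [mem_biUnion]
      refine ⟨(x i).toNat, ?_, ?_⟩
      · rw [mem_range]
        have h1 : ((x i).toNat : ℤ) = x i := Int.toNat_of_nonneg hi.2.1.le
        have h2 : ((x i).toNat : ℤ) < ((d ^ (3 * N) : ℕ) : ℤ) := by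
          rw [h1]
          push_cast
          exact hi.2.2
        exact_mod_cast h2
      · rw [mem_filter]
        refine ⟨hi.1, ?_⟩
        rw [hxi, Int.toNat_of_nonneg hi.2.1.le, sub_self]
        exact dvd_zero _
    have h1 := (Finset.card_le_card hsub).trans Finset.card_biUnion_le
    have h2 : (A1.card : ℝ) ≤ ∑ v ∈ range (d ^ (3 * N)), (((Finset.Ioc M (2 * M)).filter (fun i =>
        ((d ^ (6 * N) : ℕ) : ℤ) ∣ c₀ + κ * vl f x0 U i - (v : ℤ))).card : ℝ) := by exact_mod_cast h1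
    have h3 : ∑ v ∈ range (d ^ (3 * N)), (((Finset.Ioc M (2 * M)).filter (fun i =>
        ((d ^ (6 * N) : ℕ) : ℤ) ∣ c₀ + κ * vl f x0 U i - (v : ℤ))).card : ℝ) ≤
        ∑ _v ∈ range (d ^ (3 * N)), B * ((M : ℝ) / ((d ^ (6 * N) : ℕ) : ℝ)) := by
      refine Finset.sum_le_sum fun v _ => ?_
      rw [hB]
      exact hq κ _ (hpos (6 * N)) hκ hq6 c₀ (v : ℤ)
    refine h2.trans (h3.trans (le_of_eq ?_))
    rw [Finset.sum_const, card_range, nsmul_eq_mul]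
    push_cast
    have e1 : (d : ℝ) ^ (6 * N) = (d : ℝ) ^ (3 * N) * (d : ℝ) ^ (3 * N) := by
      rw [← pow_add]
      congr 1
      ring
    rw [e1]
    have hp : (d : ℝ) ^ (3 * N) ≠ 0 := by positivity
    field_simp
  have hcard2 : (A2.card : ℝ) ≤ M * (B * (K * ((N + 1) * Real.exp (-(c2 * N))))) := by
    obtain ⟨V, hV⟩ : ∃ V : Finset ℤ, V = A2.image (fun i => x i % (d : ℤ) ^ N) := ⟨_, rfl⟩
    have hVc := hcl N V (by
      intro v hv
      rw [hV, mem_image] at hv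
      obtain ⟨i, hi, rfl⟩ := hv
      rw [hA2, mem_filter] at hi
      exact ⟨x i, mem_S hd _, hi.2, rfl⟩)
    have hsub : A2 ⊆ V.biUnion (fun v => (Finset.Ioc M (2 * M)).filter (fun i =>
        ((d ^ N : ℕ) : ℤ) ∣ c₀ + κ * vl f x0 U i - v)) := by
      intro i hi
      rw [mem_biUnion]
      refine ⟨x i % (d : ℤ) ^ N, ?_, ?_⟩
      · rw [hV]
        exact mem_image_of_mem _ hi
      · rw [hA2, mem_filter] at hi
        rw [mem_filter]
        refine ⟨hi.1, ?_⟩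
        rw [hxi]
        push_cast
        exact Int.dvd_self_sub_emod
    have h1 := (Finset.card_le_card hsub).trans Finset.card_biUnion_le
    have h2 : (A2.card : ℝ) ≤ ∑ v ∈ V, (((Finset.Ioc M (2 * M)).filter (fun i =>
        ((d ^ N : ℕ) : ℤ) ∣ c₀ + κ * vl f x0 U i - v)).card : ℝ) := by exact_mod_cast h1
    refine h2.trans ((Finset.sum_le_sum fun v _ => hq κ _ (hpos N) hκ hq1 c₀ v).trans ?_)
    rw [Finset.sum_const, nsmul_eq_mul, ← hB]
    have hgd : ((Leigh.gm D).d : ℝ) = d := rfl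
    rw [hgd] at hVc
    push_cast
    have hp : (0 : ℝ) < (d : ℝ) ^ N := by positivity
    calc (V.card : ℝ) * (B * (M / (d : ℝ) ^ N)) ≤
        K * ((N + 1) * ((d : ℝ) ^ N * Real.exp (-(c2 * N)))) * (B * (M / (d : ℝ) ^ N)) := by gcongr
      _ = M * (B * (K * ((N + 1) * Real.exp (-(c2 * N))))) := by
          field_simp
  -- the others drop
  have hsub : (Finset.Ioc M (2 * M)).filter (fun i => ¬ Dr d m r (Real.exp (-(cc * S))) (x i)) ⊆ A1 ∪ A2 := by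
    intro i hi
    rw [mem_filter] at hi
    by_contra hcon
    rw [mem_union, not_or] at hcon
    refine hi.2 fun h1 h2 => ?_
    have h3 : (d : ℤ) ^ (3 * N) ≤ x i := by
      by_contra h4
      exact hcon.1 (by rw [hA1, mem_filter]; exact ⟨hi.1, h1, not_le.1 h4⟩)
    have h4 : ¬ Unb (Leigh.gm D) (mu (Leigh.gm D) (CC d) (fun _ => 1 / (d : ℝ))) (kap d m * Real.log d / 2) N (x i) := by
      intro h5
      exact hcon.2 (by rw [hA2, mem_filter]; exact ⟨hi.1, h5⟩)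
    obtain ⟨k, g1, g2, g3, g4⟩ := hdr (x i) h1 h2 h4 (by exact_mod_cast h3)
    refine ⟨k, g1, g2, g3, g4.trans ?_⟩
    have hxr : (0 : ℝ) < (x i : ℝ) := by exact_mod_cast h1
    apply mul_le_mul_of_nonneg_right _ hxr.le
    apply Real.exp_le_exp.2
    have h6 : cc * S ≤ c1 * N := by
      rw [hcc]
      calc min c1 (min c2 1 / 2) * a * S = min c1 (min c2 1 / 2) * (a * S) := by ring
        _ ≤ c1 * N := mul_le_mul (min_le_left _ _) hNge (by positivity) hc1.le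
    linarith
  have h1 := (Finset.card_le_card hsub).trans (Finset.card_union_le _ _)
  have h2 : ((((Finset.Ioc M (2 * M)).filter (fun i => ¬ Dr d m r (Real.exp (-(cc * S))) (x i))).card : ℕ) : ℝ) ≤
      A1.card + A2.card := by exact_mod_cast h1
  refine h2.trans ?_
  calc (A1.card : ℝ) + A2.card ≤ M * (B / (d : ℝ) ^ (3 * N)) + M * (B * (K * ((N + 1) * Real.exp (-(c2 * N))))) :=
        add_le_add hcard1 hcard2
    _ = M * (B / (d : ℝ) ^ (3 * N) + B * (K * ((N + 1) * Real.exp (-(c2 * N))))) := by ring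
    _ ≤ M * Real.exp (-(min c2 1 / 2 * N)) := by gcongr
    _ ≤ M * Real.exp (-(cc * S)) := by
        refine mul_le_mul_of_nonneg_left (Real.exp_le_exp.2 (neg_le_neg ?_)) hM0
        rw [hcc]
        calc min c1 (min c2 1 / 2) * a * S = min c1 (min c2 1 / 2) * (a * S) := by ring
          _ ≤ min c2 1 / 2 * N := mul_le_mul (min_le_right _ _) hNge (by positivity) hmm.le

open Classical in
/-- **all the integers near the members of sparse families drop** -/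
theorem near (hd : 2 ≤ d) (hm : 2 ≤ m) (hc : Nat.Coprime m d)
    (hle : (m : ℝ) ≤ (d : ℝ) ^ ((d : ℝ) / ((d : ℝ) - 1)))
    (hr : ∀ j : ℤ, 1 ≤ j → j < d → (d : ℤ) ∣ m * j - r j)
    {f : ℝ → ℝ} {x0 : ℝ} {k0 : ℕ} (hf : Ord f x0 k0) (δ0 ε : ℝ) (hδ0 : 0 < δ0) (hε : 0 < ε) (hε2 : ε < 1 / 2) :
    ∃ c : ℝ, 0 < c ∧ ∀ κ : ℤ, κ ≠ 0 → ∃ N0 : ℕ, ∀ M : ℕ, N0 ≤ M → ∀ U : ℝ, Rg k0 δ0 ε M U → ∀ c₀ : ℤ,
    (((Finset.Ioc M (2 * M)).filter (fun i => ¬ ∀ n : ℤ, |(n : ℝ) - ((c₀ + κ * vl f x0 U i : ℤ) : ℝ)| ≤ Real.exp (c * Sv M U) →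
      Dr d m r (Real.exp (-(c * Sv M U))) n)).card : ℝ) ≤ M * Real.exp (-(c * Sv M U)) := by
  obtain ⟨c, hc0, hmain⟩ := main (r := r) hd hm hc hle hr hf δ0 ε hδ0 hε hε2
  refine ⟨c / 3, by positivity, fun κ hκ => ?_⟩
  obtain ⟨N1, h1⟩ := hmain κ hκ
  obtain ⟨N2, h2⟩ := S_big hf.2.1 δ0 ε hδ0 hε (6 / c)
  refine ⟨max N1 N2, fun M hM U hU c₀ => ?_⟩
  have h3 := h1 M (le_of_max_le_left hM) U hU
  have h4 := h2 M (le_of_max_le_right hM) U hU
  obtain ⟨S, hSS⟩ : ∃ S : ℝ, S = Sv M U := ⟨_, rfl⟩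
  rw [← hSS] at h3 h4 ⊢
  have hS0 : 0 ≤ S := le_trans (by positivity) h4
  have hS2 : 2 ≤ c / 3 * S := by
    rw [div_le_iff₀ hc0] at h4
    linarith
  obtain ⟨E, hE⟩ : ∃ E : ℝ, E = Real.exp (c / 3 * S) := ⟨_, rfl⟩
  have hE3 : 3 ≤ E := by
    have g1 := Real.add_one_le_exp (c / 3 * S)
    rw [hE]
    linarith
  have hE0 : 0 < E := by linarith
  have hEn : Real.exp (-(c / 3 * S)) = E⁻¹ := by rw [hE, Real.exp_neg]
  have hE3n : Real.exp (-(c * S)) = E⁻¹ * E⁻¹ * E⁻¹ := by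
    rw [← hEn, ← Real.exp_add, ← Real.exp_add]
    congr 1
    ring
  have hM0 : (0 : ℝ) ≤ M := Nat.cast_nonneg M
  obtain ⟨W, hW⟩ : ∃ W : ℕ, W = ⌊E⌋₊ := ⟨_, rfl⟩
  have hWE : (W : ℝ) ≤ E := by
    rw [hW]
    exact Nat.floor_le hE0.le
  have hsub : (Finset.Ioc M (2 * M)).filter (fun i => ¬ ∀ n : ℤ, |(n : ℝ) - ((c₀ + κ * vl f x0 U i : ℤ) : ℝ)| ≤
      Real.exp (c / 3 * S) → Dr d m r (Real.exp (-(c / 3 * S))) n) ⊆
      (Finset.Icc (-(W : ℤ)) W).biUnion (fun h => (Finset.Ioc M (2 * M)).filter (fun i =>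
        ¬ Dr d m r (Real.exp (-(c * S))) ((c₀ + h) + κ * vl f x0 U i))) := by
    intro i hi
    rw [mem_filter] at hi
    obtain ⟨hi1, hi2⟩ := hi
    push Not at hi2
    obtain ⟨n, hn1, hn2⟩ := hi2
    rw [mem_biUnion]
    refine ⟨n - (c₀ + κ * vl f x0 U i), ?_, ?_⟩
    · have g1 : |((n - (c₀ + κ * vl f x0 U i) : ℤ) : ℝ)| ≤ E := by
        rw [hE]
        push_cast at hn1 ⊢
        exact hn1
      have g2 : (n - (c₀ + κ * vl f x0 U i)).natAbs ≤ W := by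
        rw [hW]
        apply Nat.le_floor
        rw [Nat.cast_natAbs]
        push_cast at g1 ⊢
        exact g1
      rw [Finset.mem_Icc]
      omega
    · rw [mem_filter]
      refine ⟨hi1, fun g => hn2 ?_⟩
      have e1 : c₀ + (n - (c₀ + κ * vl f x0 U i)) + κ * vl f x0 U i = n := by ring
      rw [e1] at g
      intro g1 g2
      obtain ⟨k, k1, k2, k3, k4⟩ := g g1 g2
      refine ⟨k, k1, k2, k3, k4.trans ?_⟩
      have hnr : (0 : ℝ) < (n : ℝ) := by exact_mod_cast g1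
      apply mul_le_mul_of_nonneg_right _ hnr.le
      apply Real.exp_le_exp.2
      have : c / 3 * S ≤ c * S := by
        have : 0 ≤ c * S := by positivity
        linarith
      linarith
  have h5 := (Finset.card_le_card hsub).trans Finset.card_biUnion_le
  have h6 : (((Finset.Ioc M (2 * M)).filter (fun i => ¬ ∀ n : ℤ, |(n : ℝ) - ((c₀ + κ * vl f x0 U i : ℤ) : ℝ)| ≤
      Real.exp (c / 3 * S) → Dr d m r (Real.exp (-(c / 3 * S))) n)).card : ℝ) ≤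
      ∑ h ∈ Finset.Icc (-(W : ℤ)) W, (((Finset.Ioc M (2 * M)).filter (fun i =>
        ¬ Dr d m r (Real.exp (-(c * S))) ((c₀ + h) + κ * vl f x0 U i))).card : ℝ) := by exact_mod_cast h5
  have h7 : ∑ h ∈ Finset.Icc (-(W : ℤ)) W, (((Finset.Ioc M (2 * M)).filter (fun i =>
      ¬ Dr d m r (Real.exp (-(c * S))) ((c₀ + h) + κ * vl f x0 U i))).card : ℝ) ≤
      ∑ _h ∈ Finset.Icc (-(W : ℤ)) W, (M : ℝ) * Real.exp (-(c * S)) :=
    Finset.sum_le_sum fun h _ => h3 (c₀ + h)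
  refine h6.trans (h7.trans ?_)
  rw [Finset.sum_const, nsmul_eq_mul, Int.card_Icc]
  have e2 : ((W : ℤ) + 1 - -(W : ℤ)).toNat = 2 * W + 1 := by omega
  rw [e2, hE3n, hEn]
  push_cast
  have e3 : 2 * (W : ℝ) + 1 ≤ 3 * E := by linarith
  have hEi : 0 < E⁻¹ := inv_pos.2 hE0
  calc (2 * (W : ℝ) + 1) * (M * (E⁻¹ * E⁻¹ * E⁻¹)) ≤ 3 * E * (M * (E⁻¹ * E⁻¹ * E⁻¹)) := by gcongr
    _ = M * (3 * E⁻¹ * E⁻¹) := by field_simp
    _ ≤ M * (E * E⁻¹ * E⁻¹) := by gcongr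
    _ = M * E⁻¹ := by field_simp

end Pool.Agent.W2helper30.HG
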